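import Pool.Agent.Lib.MP_d20c4f_pr.Final

/-!
Nested coupling of random regular graphs when the larger degree, or the codegree of the smaller
degree, is bounded.
-/

namespace Pool.Agent.Variants.MP_d20c4f_pr.BoundedDegree

open Pool.Agent.Lib.MP_d20c4f_pr

theorem result :
    ∀ D : ℕ, ∀ ε : ℝ, 0 < ε → ∃ N : ℕ, ∀ n : ℕ, N ≤ n → ∀ d₁ d₂ : ℕ,
      (d₂ ≤ D ∨ n - 1 - d₁ ≤ D) →
      d₁ ≤ d₂ → d₂ ≤ n - 1 →
      ¬ (d₁ = 1 ∧ d₂ = 2) → ¬ (d₁ = n - 3 ∧ d₂ = n - 2) →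
      Even (d₁ * n) → Even (d₂ * n) →
      ∃ μ : PMF (SimpleGraph (Fin n) × SimpleGraph (Fin n)),
        (∀ G H : SimpleGraph (Fin n),
            (∀ v, (G.neighborSet v).ncard = d₁) →
            (∀ v, (H.neighborSet v).ncard = d₁) →
            μ.map Prod.fst G = μ.map Prod.fst H) ∧
        (∀ G : SimpleGraph (Fin n),
            ¬ (∀ v, (G.neighborSet v).ncard = d₁) → μ.map Prod.fst G = 0) ∧
        (∀ G H : SimpleGraph (Fin n),
            (∀ v, (G.neighborSet v).ncard = d₂) →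
            (∀ v, (H.neighborSet v).ncard = d₂) →
            μ.map Prod.snd G = μ.map Prod.snd H) ∧
        (∀ G : SimpleGraph (Fin n),
            ¬ (∀ v, (G.neighborSet v).ncard = d₂) → μ.map Prod.snd G = 0) ∧
        ENNReal.ofReal (1 - ε) ≤ μ.toOuterMeasure {p | p.1 ≤ p.2} := by
  intro D ε hε
  obtain ⟨N, hN⟩ := Filter.eventually_atTop.1 (cpl_all D hε)
  refine ⟨N, fun n hn a b h1 h2 h3 h4 h5 h6 h7 => ?_⟩
  obtain ⟨μ, m1, m2, m3, m4, m5⟩ := (hN n hn a b h1 h2 h3 h4 h5 h6 h7).pmf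
  exact ⟨μ, fun G H hG hH => m1 G (mem_RG.2 hG) H (mem_RG.2 hH), fun G h => m2 G (mt mem_RG.1 h),
    fun G H hG hH => m3 G (mem_RG.2 hG) H (mem_RG.2 hH), fun G h => m4 G (mt mem_RG.1 h), m5⟩

end Pool.Agent.Variants.MP_d20c4f_pr.BoundedDegree
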